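import Pool.Agent.KTK.Stmts

/-! # KTK, row CRO: one step in the adapted coordinates -/

set_option autoImplicit false

namespace Pool.Agent.KTK.H64

open Pool.Agent.PRT Pool.Agent.KTK

theorem abs_cr (a b : E) : |cr a b| ≤ 2 * (‖a‖ * ‖b‖) := by
  have h1 : |a.1| ≤ ‖a‖ := norm_fst_le a
  have h2 : |a.2| ≤ ‖a‖ := norm_snd_le a
  have h3 : |b.1| ≤ ‖b‖ := norm_fst_le b
  have h4 : |b.2| ≤ ‖b‖ := norm_snd_le b
  unfold cr
  calc |a.1 * b.2 - a.2 * b.1| ≤ |a.1 * b.2| + |a.2 * b.1| := abs_sub _ _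
    _ = |a.1| * |b.2| + |a.2| * |b.1| := by rw [abs_mul, abs_mul]
    _ ≤ ‖a‖ * ‖b‖ + ‖a‖ * ‖b‖ := by
      apply add_le_add
      · exact mul_le_mul h1 h4 (abs_nonneg _) (norm_nonneg _)
      · exact mul_le_mul h2 h3 (abs_nonneg _) (norm_nonneg _)
    _ = 2 * (‖a‖ * ‖b‖) := by ring

theorem cro : CroStmt := by
  intro g C0 x e f e' f' α β ξ η hq he hf he' hf' hα hβ hc
  obtain ⟨R, hR⟩ : ∃ R, R = g (x + (ξ • e + η • f)) - g x - fderiv ℝ g x (ξ • e + η • f) :=
    ⟨_, rfl⟩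
  have hRn : ‖R‖ ≤ C0 * ‖ξ • e + η • f‖ ^ 2 := by
    rw [hR]
    exact hq x _
  have hh : ‖ξ • e + η • f‖ ≤ |ξ| + |η| := by
    calc ‖ξ • e + η • f‖ ≤ ‖ξ • e‖ + ‖η • f‖ := norm_add_le _ _
      _ = |ξ| + |η| := by rw [norm_smul, norm_smul, he, hf, Real.norm_eq_abs, Real.norm_eq_abs]; ring
  have hC0 : 0 ≤ C0 := by
    have h1 := hq x e
    rw [he] at h1
    have h2 := norm_nonneg (g (x + e) - g x - fderiv ℝ g x e)
    linarith
  have hRb : ‖R‖ ≤ C0 * (|ξ| + |η|) ^ 2 := by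
    refine hRn.trans ?_
    apply mul_le_mul_of_nonneg_left _ hC0
    exact pow_le_pow_left₀ (norm_nonneg _) hh 2
  have hlin : fderiv ℝ g x (ξ • e + η • f) = (ξ * α) • e' + (η * β) • f' := by
    rw [map_add, map_smul, map_smul, hα, hβ, smul_smul, smul_smul]
  have hval : g (x + (ξ • e + η • f)) - g x = (ξ * α) • e' + (η * β) • f' + R := by
    rw [hR, hlin]
    abel
  have hcp : 0 < |cr e' f'| := abs_pos.2 hc
  have k1 : cr (g (x + (ξ • e + η • f)) - g x) f' = ξ * α * cr e' f' + cr R f' := by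
    rw [hval]
    unfold cr
    simp only [Prod.fst_add, Prod.snd_add, Prod.smul_fst, Prod.smul_snd, smul_eq_mul]
    ring
  have k2 : cr e' (g (x + (ξ • e + η • f)) - g x) = η * β * cr e' f' + cr e' R := by
    rw [hval]
    unfold cr
    simp only [Prod.fst_add, Prod.snd_add, Prod.smul_fst, Prod.smul_snd, smul_eq_mul]
    ring
  constructor
  · have h1 : cr (g (x + (ξ • e + η • f)) - g x) f' / cr e' f' - α * ξ = cr R f' / cr e' f' := by
      rw [k1, add_div, mul_div_cancel_right₀ _ hc]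
      ring
    rw [h1, abs_div]
    apply div_le_div_of_nonneg_right _ hcp.le
    refine (abs_cr R f').trans ?_
    rw [hf', mul_one]
    linarith
  · have h1 : cr e' (g (x + (ξ • e + η • f)) - g x) / cr e' f' - β * η = cr e' R / cr e' f' := by
      rw [k2, add_div, mul_div_cancel_right₀ _ hc]
      ring
    rw [h1, abs_div]
    apply div_le_div_of_nonneg_right _ hcp.le
    refine (abs_cr e' R).trans ?_
    rw [he', one_mul]
    linarith

end Pool.Agent.KTK.H64
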